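import Pool.Agent.Lib.MP_38b438_an.N5.Meas

set_option autoImplicit false

namespace Pool.Agent.Results.MP_38b438_an.Counterexample

open MeasureTheory Pool.Agent.Lib.MP_38b438_an.N5
open scoped ENNReal

lemma orbit_sum : ∑ j ∈ Finset.range 14,
    Measure.dirac ((3 * 2 ^ j / 43 : ℝ) : UnitAddCircle) = ∑ r ∈ Kidx, Measure.dirac (pt r) := by
  have h1 : ∀ j ∈ Finset.range 14, Measure.dirac ((3 * 2 ^ j / 43 : ℝ) : UnitAddCircle)
      = Measure.dirac (pt (3 * 2 ^ j % 43)) := by
    intro j _
    rw [pt_mod, pt]
    push_cast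
    rfl
  rw [Finset.sum_congr rfl h1]
  have h2 : (Finset.range 14).image (fun j => 3 * 2 ^ j % 43) = Kidx := by decide
  rw [← h2, Finset.sum_image]
  intro a ha b hb hab
  have : ∀ a ∈ Finset.range 14, ∀ b ∈ Finset.range 14,
      3 * 2 ^ a % 43 = 3 * 2 ^ b % 43 → a = b := by decide
  exact this a ha b hb hab

/-- There is a function `f ∈ V 5` whose unique maximizing measure is the measure equidistributed on
the orbit of `3 / 43` under the doubling map (a periodic orbit of period 14), and every flower
containing the support of this measure has at least seven petals. In particular the support is not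
contained in a flower with at most five petals. -/
theorem result : ∃ f ∈ oddTrig 5, ∃ μ : Measure UnitAddCircle,
    μ = (14 : ℝ≥0∞)⁻¹ • ∑ j ∈ Finset.range 14,
      Measure.dirac ((3 * 2 ^ j / 43 : ℝ) : UnitAddCircle) ∧
    IsMaximizing f μ ∧ (∀ ν : Measure UnitAddCircle, IsMaximizing f ν → ν = μ) ∧
    ∀ X : Set UnitAddCircle, IsFlower X → μ.support ⊆ X → 7 ≤ petals X := by
  refine ⟨F, F_mem, mu0, ?_, mu0_maximizing, fun ν hν => unique_maximizing hν,
    fun X hX hs => petals_bound hX hs⟩
  rw [mu0, orbit_sum]

end Pool.Agent.Results.MP_38b438_an.Counterexample
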