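import Pool.Agent.Lib.MP_38b438_an.Example3

set_option autoImplicit false

/-!
The flower statement fails for `n = 3`: for `f x = 22 cos 2πx - (19 - √33) cos 6πx` there is a
maximizing measure whose support is contained in no flower with fewer than five petals.
-/

open MeasureTheory

namespace Pool.Agent.Results.MP_38b438_an.FlowerFails

open Pool.Agent.Lib.MP_38b438_an

theorem result :
    (∃ f : UnitAddCircle → ℝ, IsOddTrigPoly 3 f ∧
      (∀ x : ℝ, f x = 22 * Real.cos (2 * Real.pi * x) -
        (19 - √33) * Real.cos (3 * (2 * Real.pi * x))) ∧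
      ∃ μ : Measure UnitAddCircle, IsMaximizing f μ ∧
        ∀ X : Set UnitAddCircle, IsFlower X → μ.support ⊆ X → 5 ≤ petals X) ∧
    ¬ ∀ n : ℕ, Odd n → ∀ f : UnitAddCircle → ℝ, IsOddTrigPoly n f →
      ∀ μ : Measure UnitAddCircle, IsMaximizing f μ →
        ∃ X : Set UnitAddCircle, IsFlower X ∧ petals X ≤ n ∧ μ.support ⊆ X := by
  refine ⟨⟨f3, isOddTrigPoly_f3, f3_coe, mu3, isMaximizing_mu3,
    fun X hX h => five_le_petals hX h⟩, fun hcon => ?_⟩
  obtain ⟨X, hX, hp, hs⟩ := hcon 3 (by decide) f3 isOddTrigPoly_f3 mu3 isMaximizing_mu3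
  have h := (five_le_petals hX hs).trans hp
  exact absurd h (by norm_num)

end Pool.Agent.Results.MP_38b438_an.FlowerFails
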