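import Pool.Agent.Lib.MP_38b438_an.Petals5

set_option autoImplicit false

/-!
The flower statement fails for `n = 5` on an open set of functions and for all their maximizing
measures: if `g` is uniformly close to `f x = -(73 cos 2πx + 100 cos 6πx + 66 cos 10πx)`, then the
support of every maximizing measure of `g` is contained in no flower with fewer than seven petals.
-/

open MeasureTheory

namespace Pool.Agent.Results.MP_38b438_an.FlowerFailsOpen

open Pool.Agent.Lib.MP_38b438_an

theorem result :
    ∃ f : UnitAddCircle → ℝ, IsOddTrigPoly 5 f ∧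
      (∀ x : ℝ, f x = -(73 * Real.cos (2 * Real.pi * x) +
        100 * Real.cos (3 * (2 * Real.pi * x)) + 66 * Real.cos (5 * (2 * Real.pi * x)))) ∧
      ∀ g : UnitAddCircle → ℝ, Continuous g → (∀ x, |g x - f x| ≤ 1 / 200) →
        (∃ μ : Measure UnitAddCircle, IsMaximizing g μ) ∧
        ∀ μ : Measure UnitAddCircle, IsMaximizing g μ →
          ∀ X : Set UnitAddCircle, IsFlower X → μ.support ⊆ X → 7 ≤ petals X := by
  refine ⟨f5, isOddTrigPoly_f5, f5_coe, fun g hg hfg => ⟨exists_isMaximizing hg, ?_⟩⟩
  intro μ hμ X hX hs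
  refine seven_le_petals hX fun i => ?_
  obtain ⟨p, hp, hi⟩ := exists_mem_support hg hfg hμ i
  exact ⟨p, hs hp, hi⟩

end Pool.Agent.Results.MP_38b438_an.FlowerFailsOpen
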